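import Mathlib

set_option autoImplicit false

namespace Pool.Agent.Results.MP_04b39a_gt.NonplanarCopy

/-- The norm `‖x‖_p = (|x₁|^p + |x₂|^p + |x₃|^p)^(1/p)` on `ℝ³`. -/
noncomputable def lpNorm (p : ℝ) (x : Fin 3 → ℝ) : ℝ :=
  (|x 0| ^ p + |x 1| ^ p + |x 2| ^ p) ^ (1 / p)

/-- `M'` is an `ℓ_p`-isometric copy of `M`: some bijection `φ : M → M'` satisfies
`‖φ x - φ y‖_p = ‖x - y‖_p` for all `x, y ∈ M`. -/
def IsLpCopy (p : ℝ) (M M' : Set (Fin 3 → ℝ)) : Prop :=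
  ∃ φ : (Fin 3 → ℝ) → (Fin 3 → ℝ), Set.BijOn φ M M' ∧
    ∀ x ∈ M, ∀ y ∈ M, lpNorm p (φ x - φ y) = lpNorm p (x - y)

/-- The space curve. -/
noncomputable def g (t : ℝ) : Fin 3 → ℝ :=
  ![t - 2 / (t + 1) - 1 / t + 2 / (t - 1),
    t + 2 / (t + 1) + 1 / t + 2 / (t - 1),
    t + 2 / (t + 1) - 1 / t - 2 / (t - 1)]

/-- The plane curve. -/
noncomputable def f (t : ℝ) : Fin 3 → ℝ :=
  ![t - 2 / (t + 1) + 1 / t - 2 / (t - 1),
    (2 : ℝ) ^ (1 / 3 : ℝ) * (t + 2 / (t + 1) - 1 / t + 2 / (t - 1)), 0]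

/-- Elementary bound used for the monotonicity of all the coordinates. -/
lemma small_aux {s t : ℝ} (hs : 3 ≤ s) (ht : 3 ≤ t) :
    0 ≤ 1 / ((s + 1) * (t + 1)) ∧ 1 / ((s + 1) * (t + 1)) ≤ 1 / 16 ∧
    0 ≤ 1 / (s * t) ∧ 1 / (s * t) ≤ 1 / 9 ∧
    0 ≤ 1 / ((s - 1) * (t - 1)) ∧ 1 / ((s - 1) * (t - 1)) ≤ 1 / 4 := by
  have h1 : (16 : ℝ) ≤ (s + 1) * (t + 1) := by nlinarith
  have h2 : (9 : ℝ) ≤ s * t := by nlinarith
  have h3 : (4 : ℝ) ≤ (s - 1) * (t - 1) := by nlinarith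
  refine ⟨by positivity, ?_, by positivity, ?_, ?_, ?_⟩
  · exact one_div_le_one_div_of_le (by norm_num) h1
  · exact one_div_le_one_div_of_le (by norm_num) h2
  · exact one_div_nonneg.mpr (by linarith)
  · exact one_div_le_one_div_of_le (by norm_num) h3

/-- The differences of the four building blocks of the two curves. -/
lemma diff_aux {s t : ℝ} (hs : 3 ≤ s) (ht : 3 ≤ t) :
    2 / (t + 1) - 2 / (s + 1) = (t - s) * (-(2 * (1 / ((s + 1) * (t + 1))))) ∧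
    1 / t - 1 / s = (t - s) * (-(1 / (s * t))) ∧
    2 / (t - 1) - 2 / (s - 1) = (t - s) * (-(2 * (1 / ((s - 1) * (t - 1))))) := by
  have hs0 : s ≠ 0 := by linarith
  have ht0 : t ≠ 0 := by linarith
  have hs1 : s + 1 ≠ 0 := by linarith
  have ht1 : t + 1 ≠ 0 := by linarith
  have hs2 : s - 1 ≠ 0 := by linarith
  have ht2 : t - 1 ≠ 0 := by linarith
  refine ⟨?_, ?_, ?_⟩
  · field_simp; ring
  · field_simp; ring
  · field_simp; ring

lemma two_rpow_cube : ((2 : ℝ) ^ (1 / 3 : ℝ)) ^ 3 = 2 := by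
  rw [← Real.rpow_natCast, ← Real.rpow_mul (by norm_num)]
  norm_num

/-- The sums of cubes of the coordinate differences agree, for `s ≤ t`. -/
lemma key_le {s t : ℝ} (hs : 3 ≤ s) (hst : s ≤ t) :
    |g t 0 - g s 0| ^ 3 + |g t 1 - g s 1| ^ 3 + |g t 2 - g s 2| ^ 3 =
    |f t 0 - f s 0| ^ 3 + |f t 1 - f s 1| ^ 3 + |f t 2 - f s 2| ^ 3 := by
  have ht : 3 ≤ t := hs.trans hst
  obtain ⟨a0, a1, b0, b1, c0, c1⟩ := small_aux hs ht
  obtain ⟨e1, e2, e3⟩ := diff_aux hs ht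
  set a := 1 / ((s + 1) * (t + 1)) with ha
  set b := 1 / (s * t) with hb
  set c := 1 / ((s - 1) * (t - 1)) with hc
  have hd : 0 ≤ t - s := by linarith
  have g0 : g t 0 - g s 0 = (t - s) * (1 + 2 * a + b - 2 * c) := by
    have : g t 0 - g s 0 = (t - s) - (2 / (t + 1) - 2 / (s + 1)) - (1 / t - 1 / s)
        + (2 / (t - 1) - 2 / (s - 1)) := by simp [g]; ring
    rw [this, e1, e2, e3]; ring
  have g1 : g t 1 - g s 1 = (t - s) * (1 - 2 * a - b - 2 * c) := by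
    have : g t 1 - g s 1 = (t - s) + (2 / (t + 1) - 2 / (s + 1)) + (1 / t - 1 / s)
        + (2 / (t - 1) - 2 / (s - 1)) := by simp [g]; ring
    rw [this, e1, e2, e3]; ring
  have g2 : g t 2 - g s 2 = (t - s) * (1 - 2 * a + b + 2 * c) := by
    have : g t 2 - g s 2 = (t - s) + (2 / (t + 1) - 2 / (s + 1)) - (1 / t - 1 / s)
        - (2 / (t - 1) - 2 / (s - 1)) := by simp [g]; ring
    rw [this, e1, e2, e3]; ring
  have f0 : f t 0 - f s 0 = (t - s) * (1 + 2 * a - b + 2 * c) := by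
    have : f t 0 - f s 0 = (t - s) - (2 / (t + 1) - 2 / (s + 1)) + (1 / t - 1 / s)
        - (2 / (t - 1) - 2 / (s - 1)) := by simp [f]; ring
    rw [this, e1, e2, e3]; ring
  have f1 : f t 1 - f s 1 = (2 : ℝ) ^ (1 / 3 : ℝ) * ((t - s) * (1 - 2 * a + b - 2 * c)) := by
    have : f t 1 - f s 1 = (2 : ℝ) ^ (1 / 3 : ℝ) * ((t - s) + (2 / (t + 1) - 2 / (s + 1))
        - (1 / t - 1 / s) + (2 / (t - 1) - 2 / (s - 1))) := by simp [f]; ring
    rw [this, e1, e2, e3]; ring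
  have f2 : f t 2 - f s 2 = 0 := by simp [f]
  have hr : (0 : ℝ) ≤ (2 : ℝ) ^ (1 / 3 : ℝ) := by positivity
  rw [g0, g1, g2, f0, f1, f2,
    abs_of_nonneg (mul_nonneg hd (by linarith)), abs_of_nonneg (mul_nonneg hd (by linarith)),
    abs_of_nonneg (mul_nonneg hd (by linarith)), abs_of_nonneg (mul_nonneg hd (by linarith)),
    abs_of_nonneg (mul_nonneg hr (mul_nonneg hd (by linarith))), abs_zero, mul_pow _ _ 3,
    mul_pow _ _ 3, mul_pow _ _ 3, mul_pow _ _ 3, mul_pow _ _ 3, two_rpow_cube, mul_pow _ _ 3]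
  -- the relation `e₃ = 0` between the four chord coordinates
  have rel : -(2 * a) * b * (-(2 * c)) + b * (-(2 * c)) + (-(2 * a)) * (-(2 * c))
      + (-(2 * a)) * b = 0 := by
    have hs0 : s ≠ 0 := by linarith
    have ht0 : t ≠ 0 := by linarith
    have hs1 : s + 1 ≠ 0 := by linarith
    have ht1 : t + 1 ≠ 0 := by linarith
    have hs2 : s - 1 ≠ 0 := by linarith
    have ht2 : t - 1 ≠ 0 := by linarith
    rw [ha, hb, hc]
    field_simp
    ring
  linear_combination (-24 * (t - s) ^ 3) * rel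

/-- The sums of cubes of the coordinate differences agree. -/
lemma key {s t : ℝ} (hs : 3 ≤ s) (ht : 3 ≤ t) :
    |g s 0 - g t 0| ^ 3 + |g s 1 - g t 1| ^ 3 + |g s 2 - g t 2| ^ 3 =
    |f s 0 - f t 0| ^ 3 + |f s 1 - f t 1| ^ 3 + |f s 2 - f t 2| ^ 3 := by
  rcases le_total s t with h | h
  · have := key_le hs h
    simpa only [abs_sub_comm] using this
  · exact key_le ht h

/-- The two curves have the same `ℓ_3`-distances. -/
lemma norm_eq {s t : ℝ} (hs : 3 ≤ s) (ht : 3 ≤ t) :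
    lpNorm 3 (g s - g t) = lpNorm 3 (f s - f t) := by
  have h := key hs ht
  have h3 : (3 : ℝ) = ((3 : ℕ) : ℝ) := by norm_num
  unfold lpNorm
  rw [h3]
  simp only [Real.rpow_natCast, Pi.sub_apply]
  rw [h]

lemma g_injOn : Set.InjOn g (Set.Ici 3) := by
  intro s hs t ht h
  have hs : (3 : ℝ) ≤ s := hs
  have ht : (3 : ℝ) ≤ t := ht
  obtain ⟨a0, a1, b0, b1, c0, c1⟩ := small_aux hs ht
  obtain ⟨e1, e2, e3⟩ := diff_aux hs ht
  have h0 : g t 0 - g s 0 = 0 := by rw [h]; ring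
  have : g t 0 - g s 0 = (t - s) - (2 / (t + 1) - 2 / (s + 1)) - (1 / t - 1 / s)
      + (2 / (t - 1) - 2 / (s - 1)) := by simp [g]; ring
  rw [this, e1, e2, e3] at h0
  have h1 : (t - s) * (1 + 2 * (1 / ((s + 1) * (t + 1))) + 1 / (s * t)
      - 2 * (1 / ((s - 1) * (t - 1)))) = 0 := by linarith
  rcases mul_eq_zero.mp h1 with h2 | h2
  · linarith
  · exfalso; linarith

lemma f_injOn : Set.InjOn f (Set.Ici 3) := by
  intro s hs t ht h
  have hs : (3 : ℝ) ≤ s := hs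
  have ht : (3 : ℝ) ≤ t := ht
  obtain ⟨a0, a1, b0, b1, c0, c1⟩ := small_aux hs ht
  obtain ⟨e1, e2, e3⟩ := diff_aux hs ht
  have h0 : f t 0 - f s 0 = 0 := by rw [h]; ring
  have : f t 0 - f s 0 = (t - s) - (2 / (t + 1) - 2 / (s + 1)) + (1 / t - 1 / s)
      - (2 / (t - 1) - 2 / (s - 1)) := by simp [f]; ring
  rw [this, e1, e2, e3] at h0
  have h1 : (t - s) * (1 + 2 * (1 / ((s + 1) * (t + 1))) - 1 / (s * t)
      + 2 * (1 / ((s - 1) * (t - 1)))) = 0 := by linarith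
  rcases mul_eq_zero.mp h1 with h2 | h2
  · linarith
  · exfalso; linarith

open Polynomial in
/-- A polynomial of degree at most four given by its coefficients. -/
lemma quartic_coeff (k4 k3 k2 k1 k0 : ℝ) {P : Polynomial ℝ}
    (hP : P = C k4 * X ^ 4 + C k3 * X ^ 3 + C k2 * X ^ 2 + C k1 * X + C k0) :
    P.natDegree ≤ 4 ∧ P.coeff 4 = k4 ∧ P.coeff 3 = k3 ∧ P.coeff 2 = k2 ∧ P.coeff 1 = k1 ∧
      P.coeff 0 = k0 := by
  subst hP
  refine ⟨by compute_degree, ?_, ?_, ?_, ?_, ?_⟩ <;>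
    simp [Polynomial.coeff_X, Polynomial.coeff_C]

/-- A nonzero linear equation cuts the space curve in at most four points. -/
lemma plane_section (a0 a1 a2 c : ℝ) (h : ¬ (a0 = 0 ∧ a1 = 0 ∧ a2 = 0)) :
    (g '' Set.Ici 3 ∩ {x | a0 * x 0 + a1 * x 1 + a2 * x 2 = c}).encard ≤ 4 := by
  classical
  set al := a0 + a1 + a2 with hal
  set be := -a0 + a1 + a2 with hbe
  set ga := a0 - a1 + a2 with hga
  set de := a0 + a1 - a2 with hde
  open Polynomial in
  set P : Polynomial ℝ := C al * X ^ 4 + C (-c) * X ^ 3 + C (-al + 2 * be - ga + 2 * de) * X ^ 2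
    + C (-2 * be + 2 * de + c) * X + C ga with hP
  obtain ⟨hPdeg, c4, c3, c2, c1, c0⟩ := quartic_coeff _ _ _ _ _ hP
  have hP0 : P ≠ 0 := by
    intro h0
    apply h
    rw [h0] at c4 c3 c2 c1 c0
    simp only [Polynomial.coeff_zero] at c4 c3 c2 c1 c0
    refine ⟨?_, ?_, ?_⟩ <;> linarith
  have hsub : (g '' Set.Ici 3 ∩ {x | a0 * x 0 + a1 * x 1 + a2 * x 2 = c}) ⊆
      g '' (P.roots.toFinset : Set ℝ) := by
    rintro _ ⟨⟨t, ht, rfl⟩, hx⟩
    refine ⟨t, ?_, rfl⟩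
    have ht : (3 : ℝ) ≤ t := ht
    have hx : a0 * g t 0 + a1 * g t 1 + a2 * g t 2 = c := hx
    rw [Finset.mem_coe, Multiset.mem_toFinset, Polynomial.mem_roots hP0, Polynomial.IsRoot.def]
    have ht0 : t ≠ 0 := by linarith
    have ht1 : t + 1 ≠ 0 := by linarith
    have ht2 : t - 1 ≠ 0 := by linarith
    have e : P.eval t = (t * (t + 1) * (t - 1)) *
        (a0 * g t 0 + a1 * g t 1 + a2 * g t 2 - c) := by
      rw [hP]
      simp only [Polynomial.eval_add, Polynomial.eval_mul, Polynomial.eval_C,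
        Polynomial.eval_pow, Polynomial.eval_X, g, Matrix.cons_val_zero, Matrix.cons_val_one,
        Matrix.cons_val]
      field_simp
      ring
    rw [e, hx]; ring
  calc (g '' Set.Ici 3 ∩ {x | a0 * x 0 + a1 * x 1 + a2 * x 2 = c}).encard
      ≤ (g '' (P.roots.toFinset : Set ℝ)).encard := Set.encard_le_encard hsub
    _ ≤ (P.roots.toFinset : Set ℝ).encard := Set.encard_image_le _ _
    _ = (P.roots.toFinset.card : ℕ∞) := Set.encard_coe_eq_coe_finsetCard _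
    _ ≤ ((4 : ℕ) : ℕ∞) := by
        exact_mod_cast (Multiset.toFinset_card_le _).trans ((Polynomial.card_roots' P).trans hPdeg)
    _ = 4 := rfl

/-- A plane of `ℝ³` is contained in the zero set of a nonzero affine equation. -/
lemma plane_eq (P : AffineSubspace ℝ (Fin 3 → ℝ)) (hP : Module.finrank ℝ P.direction = 2) :
    ∃ a0 a1 a2 c : ℝ, ¬ (a0 = 0 ∧ a1 = 0 ∧ a2 = 0) ∧
      (P : Set (Fin 3 → ℝ)) ⊆ {x | a0 * x 0 + a1 * x 1 + a2 * x 2 = c} := by
  have hlt : P.direction < ⊤ := by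
    rw [lt_top_iff_ne_top]
    intro h
    rw [h, finrank_top] at hP
    simp at hP
  obtain ⟨l, hl0, hl⟩ := Submodule.exists_le_ker_of_lt_top P.direction hlt
  have hexp : ∀ x : Fin 3 → ℝ, l x =
      l (Pi.single 0 1) * x 0 + l (Pi.single 1 1) * x 1 + l (Pi.single 2 1) * x 2 := by
    intro x
    have hx : x = x 0 • (Pi.single 0 1 : Fin 3 → ℝ) + x 1 • (Pi.single 1 1 : Fin 3 → ℝ)
        + x 2 • (Pi.single 2 1 : Fin 3 → ℝ) := by
      ext i; fin_cases i <;> simp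
    conv_lhs => rw [hx]
    simp only [map_add, map_smul, smul_eq_mul]
    ring
  rcases Set.eq_empty_or_nonempty (P : Set (Fin 3 → ℝ)) with he | ⟨q, hq⟩
  · refine ⟨1, 0, 0, 0, by simp, ?_⟩
    rw [he]; exact Set.empty_subset _
  · refine ⟨l (Pi.single 0 1), l (Pi.single 1 1), l (Pi.single 2 1), l q, ?_, ?_⟩
    · rintro ⟨h0, h1, h2⟩
      apply hl0
      ext x
      rw [LinearMap.comp_apply, LinearMap.comp_apply, LinearMap.zero_apply, hexp, h0, h1, h2]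
      ring
    · intro x hx
      have hd : x - q ∈ P.direction := AffineSubspace.vsub_mem_direction hx hq
      have : l (x - q) = 0 := hl hd
      rw [map_sub, sub_eq_zero] at this
      change _ = _
      rw [← hexp]
      exact this

/-- Let `p = 3`. There are an infinite set `M` in a horizontal plane `{x₃ = c}` of `ℝ³` and an
`ℓ_p`-isometric copy `M'` of `M` that meets every plane of `ℝ³` in at most four points. -/
theorem result :
    ∃ M M' : Set (Fin 3 → ℝ),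
      M.Infinite ∧ (∃ c : ℝ, ∀ x ∈ M, x 2 = c) ∧ IsLpCopy 3 M M' ∧
      ∀ P : AffineSubspace ℝ (Fin 3 → ℝ), Module.finrank ℝ P.direction = 2 →
        (M' ∩ (P : Set (Fin 3 → ℝ))).encard ≤ 4 := by
  refine ⟨f '' Set.Ici 3, g '' Set.Ici 3, ?_, ?_, ?_, ?_⟩
  · exact (Set.Ici_infinite 3).image f_injOn
  · refine ⟨0, ?_⟩
    rintro _ ⟨t, _, rfl⟩
    simp [f]
  · refine ⟨fun x => g (Function.invFunOn f (Set.Ici 3) x), ⟨?_, ?_, ?_⟩, ?_⟩
    · rintro _ ⟨t, ht, rfl⟩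
      exact ⟨_, Function.invFunOn_mem ⟨t, ht, rfl⟩, rfl⟩
    · rintro _ ⟨s, hs, rfl⟩ _ ⟨t, ht, rfl⟩ h
      have h' : g (Function.invFunOn f (Set.Ici 3) (f s)) =
        g (Function.invFunOn f (Set.Ici 3) (f t)) := h
      rw [f_injOn.leftInvOn_invFunOn hs, f_injOn.leftInvOn_invFunOn ht] at h'
      rw [g_injOn hs ht h']
    · rintro _ ⟨t, ht, rfl⟩
      refine ⟨f t, ⟨t, ht, rfl⟩, ?_⟩
      change g (Function.invFunOn f (Set.Ici 3) (f t)) = g t
      rw [f_injOn.leftInvOn_invFunOn ht]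
    · rintro _ ⟨s, hs, rfl⟩ _ ⟨t, ht, rfl⟩
      change lpNorm 3 (g (Function.invFunOn f (Set.Ici 3) (f s)) -
        g (Function.invFunOn f (Set.Ici 3) (f t))) = lpNorm 3 (f s - f t)
      rw [f_injOn.leftInvOn_invFunOn hs, f_injOn.leftInvOn_invFunOn ht]
      exact norm_eq hs ht
  · intro P hP
    obtain ⟨a0, a1, a2, c, h, hsub⟩ := plane_eq P hP
    exact (Set.encard_le_encard (Set.inter_subset_inter_right _ hsub)).trans
      (plane_section a0 a1 a2 c h)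

end Pool.Agent.Results.MP_04b39a_gt.NonplanarCopy
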